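import Pool.Agent.H64.BT.Ping

/-!
MP_c9ffa7_al: barely transitive groups have no extremely proximal actions.
-/

set_option autoImplicit false

namespace Pool.Agent.Results.MP_c9ffa7_al.ProximalActions

/-- Let `G` act transitively on an infinite set `Ω` so that every proper subgroup has only finite
orbits. Whenever `G` acts by homeomorphisms on an infinite Hausdorff space `X`, there are a closed
set `C ≠ X` and a nonempty open set `U` such that no element of `G` maps `C` into `U`. -/
theorem result (G Ω : Type*) [Group G] [MulAction G Ω] [MulAction.IsPretransitive G Ω]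
    [Infinite Ω] (bare : ∀ K : Subgroup G, K ≠ ⊤ → ∀ x : Ω, (MulAction.orbit K x).Finite)
    (X : Type*) [TopologicalSpace X] [T2Space X] [Infinite X] [MulAction G X]
    [ContinuousConstSMul G X] :
    ∃ C U : Set X, IsClosed C ∧ C ≠ Set.univ ∧ IsOpen U ∧ U.Nonempty ∧
      ∀ g : G, ∃ x ∈ C, g • x ∉ U := by
  by_contra hcon
  push Not at hcon
  obtain ⟨ω⟩ : Nonempty Ω := inferInstance
  obtain ⟨K, hK, hK'⟩ := (H64.BT.ep_data (G := G) (X := X) hcon).main ω
  exact hK' (bare K hK ω)

end Pool.Agent.Results.MP_c9ffa7_al.ProximalActions
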