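import Pool.Agent.H64.BTL.All

/-!
MP_c9ffa7_al: torsion-free barely transitive groups are not linear, locally and in every degree.
-/

set_option autoImplicit false

universe u v w

namespace Pool.Agent.Results.MP_c9ffa7_al.Representations

/-- Let `G` be a torsion-free barely transitive group on `Ω`. For every degree `n` and every element
`g` there is a finitely generated subgroup `K` containing `g` such that `g` lies in the kernel of every
homomorphism from `K` to `GL n R`, for every commutative ring `R`. -/
theorem result (G : Type u) (Ω : Type w) [Group G] [MulAction G Ω] [FaithfulSMul G Ω]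
    [MulAction.IsPretransitive G Ω] [Infinite Ω]
    (bare : ∀ K : Subgroup G, K ≠ ⊤ → ∀ x : Ω, (MulAction.orbit K x).Finite)
    (tf : ∀ g : G, IsOfFinOrder g → g = 1) (n : ℕ) (g : G) :
    ∃ K : Subgroup G, K.FG ∧ ∃ hg : g ∈ K, ∀ (R : Type v) [CommRing R]
      (ρ : K →* Matrix.GeneralLinearGroup (Fin n) R), ρ ⟨g, hg⟩ = 1 := by
  obtain ⟨K, hK, hg, h⟩ := H64.BTL.locl.{u, v, w} (G := G) (Ω := Ω)
    ⟨inferInstance, inferInstance, inferInstance, bare, tf⟩ n g
  refine ⟨K, hK, hg, fun R _ ρ => Units.ext ?_⟩
  exact h R ((Units.coeHom (Matrix (Fin n) (Fin n) R)).comp ρ)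

end Pool.Agent.Results.MP_c9ffa7_al.Representations
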