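import Pool.Agent.H64.BM.Alt

/-!
MP_c9ffa7_al: torsion-free barely transitive groups; actions by homeomorphisms and confined subgroups.
-/

set_option autoImplicit false

universe u v w

namespace Pool.Agent.Results.MP_c9ffa7_al.TopologicallyFree

/-- Let `G` be a torsion-free barely transitive group.

1. In every minimal action by homeomorphisms on a compact Hausdorff space with at least two points the
fixed point set of every nontrivial element has empty interior.

2. Let `K` be a proper subgroup. Every finite set of nontrivial elements is missed by a conjugate of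
`K`; or every finite set is contained in a conjugate of `K`, and for every subgroup `V` which contains
a subgroup of finite index of a point stabilizer, `V` is not finitely generated and every finite set is
contained in a conjugate of `V`.

3. In every faithful action by homeomorphisms on a Hausdorff space every nonempty open set contains a
nonempty open set `U` such that only the identity fixes all points outside `U`. -/
theorem result (G : Type u) (Ω : Type w) [Group G] [MulAction G Ω] [FaithfulSMul G Ω]
    [MulAction.IsPretransitive G Ω] [Infinite Ω]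
    (bare : ∀ K : Subgroup G, K ≠ ⊤ → ∀ x : Ω, (MulAction.orbit K x).Finite)
    (tf : ∀ g : G, IsOfFinOrder g → g = 1) (x : Ω) :
    (∀ (X : Type v) [TopologicalSpace X] [CompactSpace X] [T2Space X] [Nontrivial X]
      [MulAction G X] [ContinuousConstSMul G X], (∀ y : X, Dense (MulAction.orbit G y)) →
      ∀ g : G, g ≠ 1 → interior {y : X | g • y = y} = ∅) ∧
    (∀ K : Subgroup G, K ≠ ⊤ →
      (∀ P : Finset G, 1 ∉ P → ∃ g : G, ∀ p ∈ P, g⁻¹ * p * g ∉ K) ∨
      ((∀ S : Finset G, ∃ g : G, ∀ s ∈ S, g⁻¹ * s * g ∈ K) ∧
        ∀ V : Subgroup G, V.relIndex (MulAction.stabilizer G x) ≠ 0 →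
          ¬ V.FG ∧ ∀ S : Finset G, ∃ g : G, ∀ s ∈ S, g⁻¹ * s * g ∈ V)) ∧
    ∀ (X : Type v) [TopologicalSpace X] [T2Space X] [MulAction G X] [ContinuousConstSMul G X]
      [FaithfulSMul G X] (V : Set X), IsOpen V → V.Nonempty →
      ∃ U : Set X, U ⊆ V ∧ IsOpen U ∧ U.Nonempty ∧
        ∀ g : G, (∀ y : X, y ∉ U → g • y = y) → g = 1 := by
  have hB : H47.BT.Bare G Ω := ⟨inferInstance, inferInstance, inferInstance, bare, tf⟩
  refine ⟨?_, fun K hK => H64.BM.conf_or' hB x hK, ?_⟩
  · intro X _ _ _ _ _ _ hmin g hg
    by_contra hne
    have : MulAction.IsMinimal G X := ⟨hmin⟩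
    exact H64.BM.minimal_free hB x hg isOpen_interior (Set.nonempty_iff_ne_empty.2 hne)
      fun y hy => (interior_subset hy : y ∈ {y : X | g • y = y})
  · intro X _ _ _ _ _ V hV hVn
    by_contra hcon
    push Not at hcon
    refine H64.BM.local_micro hB x hV hVn fun U hU hUn hUV hbot => ?_
    obtain ⟨g, hg, hg1⟩ := hcon U hUV hU hUn
    have h1 : g ∈ (H64.BM.Ri U : Subgroup G) := hg
    rw [hbot] at h1
    exact hg1 (Subgroup.mem_bot.1 h1)

end Pool.Agent.Results.MP_c9ffa7_al.TopologicallyFree
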