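import Pool.Agent.H64.HP.Fin

/-!
MP_c9ffa7_al: torsion-free barely transitive groups; nontrivial subnormal subgroups of point
stabilizers (and of subgroups containing almost all of a point stabilizer) have trivial centralizers.
-/

set_option autoImplicit false

namespace Pool.Agent.Results.MP_c9ffa7_al.TrivialCentralizers

/-- Let `G` be a torsion-free barely transitive group on `Ω` and `x` a point. Let `K` be a subgroup
which contains a subgroup of finite index of the stabilizer of `x` and `M` a nontrivial subnormal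
subgroup of `K`. Then the centralizer of `M` in `G` is trivial, `M` is neither solvable nor locally
nilpotent, and `M` intersects nontrivially every nontrivial subnormal subgroup `N` of every subgroup
`L` which contains a subgroup of finite index of the stabilizer. -/
theorem result (G Ω : Type*) [Group G] [MulAction G Ω] [FaithfulSMul G Ω]
    [MulAction.IsPretransitive G Ω] [Infinite Ω]
    (bare : ∀ K : Subgroup G, K ≠ ⊤ → ∀ x : Ω, (MulAction.orbit K x).Finite)
    (tf : ∀ g : G, IsOfFinOrder g → g = 1) (x : Ω) (K M : Subgroup G)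
    (hK : K.relIndex (MulAction.stabilizer G x) ≠ 0) (hMK : M ≤ K)
    (hM : (M.subgroupOf K).IsSubnormal) (hMb : M ≠ ⊥) :
    Subgroup.centralizer (M : Set G) = ⊥ ∧ ¬ Group.IsSolvable M ∧
      (∃ F : Subgroup G, F ≤ M ∧ F.FG ∧ ¬ Group.IsNilpotent F) ∧
      ∀ L N : Subgroup G, L.relIndex (MulAction.stabilizer G x) ≠ 0 → N ≤ L →
        (N.subgroupOf L).IsSubnormal → N ≠ ⊥ → M ⊓ N ≠ ⊥ := by
  have hB : H47.BT.Bare G Ω := ⟨inferInstance, inferInstance, inferInstance, bare, tf⟩
  obtain ⟨d, hd⟩ := H64.HP.exists_sn' hK hMK hM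
  refine ⟨(H64.HP.all hB x d).1 M hd hMb, H64.HP.sn_solvable hB hd hMb, H64.HP.sn_fg hB hd hMb,
    fun L N hL hNL hN hNb => ?_⟩
  obtain ⟨e, he⟩ := H64.HP.exists_sn' hL hNL hN
  exact (H64.HP.all hB x (d + e)).2 M N (hd.le (by omega)) (he.le (by omega)) hMb hNb

end Pool.Agent.Results.MP_c9ffa7_al.TrivialCentralizers
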